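import Pool.Agent.Lib.MP_af7143_lc.BdMain

/-!
# Harmonic against adversaries which differ from it in a bounded number of servers

On every metric space the Harmonic `k`-server algorithm is `c (k, m)`-competitive (with additive
constant `0`) against every adaptive online adversary which requests a point without a server of
Harmonic only when its own configuration contains all points of Harmonic's configuration but at
most `m`. Here `c (k, m) = k (k + 1) / 2` if `m ≤ 1`, and
`c (k, m) = k ^ 3 (3 m ^ 2 + 7 m + 1) / (2 k + 1)` if `m ≥ 2`.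
-/

set_option autoImplicit false

open Pool.Agent.Lib.MP_af7143_lc.Hst Pool.Agent.Lib.MP_af7143_lc.One

universe u

theorem Pool.Agent.Results.MP_af7143_lc.BoundedDiscrepancy.result (k m : ℕ)
    (M : Type u) [MetricSpace M] (x₀ : Fin k → M) (hx₀ : Function.Injective x₀)
    (A : Adversary k M)
    (hA : ∀ x y p, Reach A x₀ ((x, y) :: p) → (∀ i, x i ≠ A.req ((x, y) :: p)) →
      ∃ s : Finset (Fin k), s.card ≤ m ∧ ∀ j, j ∉ s → ∃ v, A.next ((x, y) :: p) v = x j)
    (n : ℕ) :
    costH A n [(x₀, x₀)]
      ≤ (if m ≤ 1 then (k : ℝ) * (k + 1) / 2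
          else (k : ℝ) ^ 3 * (3 * (m : ℝ) ^ 2 + 7 * m + 1) / (2 * k + 1))
        * costA A n [(x₀, x₀)] := by
  split_ifs with hm
  · refine one_result k M x₀ hx₀ A (fun x y p hr hreq => ?_) n
    obtain ⟨s, hs, hcov⟩ := hA x y p hr hreq
    rcases s.eq_empty_or_nonempty with he | ⟨i, hi⟩
    · obtain ⟨v, -⟩ := A.serves ((x, y) :: p)
      refine ⟨v, fun j _ => hcov j ?_⟩
      rw [he]
      exact Finset.notMem_empty j
    · refine ⟨i, fun j hj => hcov j fun hjs => hj ?_⟩
      exact Finset.card_le_one.1 (hs.trans hm) j hjs i hi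
  · exact Pool.Agent.Lib.MP_af7143_lc.Bd.bd_result x₀ hx₀ A hA n
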