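import Pool.Agent.Lib.MP_af7143_lc.HstMain

/-!
# Metric spaces on which the Harmonic `k`-server algorithm has the conjectured ratio

Harmonic with `k` servers is `k (k + 1) / 2`-competitive on `M` in each of the following cases:

* `M` is an ultrametric space of depth two: the distance of two points in different clusters is
  `r₀`, and the distance of two points in the cluster of `x` is `r x < r₀`;
* all nonzero distances lie in `[c, c (k + 1) / 2]`;
* `3 ≤ k` and at most two different nonzero distances occur in `M`.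
-/

set_option autoImplicit false

open Pool.Agent.Lib.MP_af7143_lc.Hst

universe u

theorem Pool.Agent.Results.MP_af7143_lc.ExactSpaces.result (k : ℕ) (hk : 1 ≤ k)
    (M : Type u) [MetricSpace M]
    (h : (∃ (r : M → ℝ) (r₀ : ℝ), (∀ x, 0 < r x ∧ r x < r₀) ∧
          (∀ x y, dist x y = 0 ∨ dist x y = r x ∨ dist x y = r₀) ∧
          ∀ x y z : M, dist x z ≤ max (dist x y) (dist y z)) ∨
      (∃ c : ℝ, 0 < c ∧
          ∀ x y : M, x ≠ y → c ≤ dist x y ∧ dist x y ≤ c * (((k : ℝ) + 1) / 2)) ∨
      (3 ≤ k ∧ ∃ r₁ r₂ : ℝ, ∀ x y : M, dist x y = 0 ∨ dist x y = r₁ ∨ dist x y = r₂)) :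
    Competitive k M ((k : ℝ) * (k + 1) / 2) := by
  rcases h with ⟨r, r₀, h1, h2, h3⟩ | ⟨c, hc, h⟩ | ⟨hk3, r₁, r₂, h⟩
  · exact two hk ⟨fun x => (h1 x).1, fun x => (h1 x).2, h2, h3⟩
  · exact bounded hk hc h
  · exact two_distances_any hk3 h
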