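import Pool.Agent.Lib.MP_af7143_lc.Potential

/-!
# The Harmonic `k`-server algorithm is polynomially competitive

For every `k ≥ 1`, every metric space and every start configuration, Harmonic is
`k³(2k²+4k-3)/(2k+1)`-competitive against adaptive online adversaries.
-/

set_option autoImplicit false

open Finset

namespace Pool.Agent.Results.MP_af7143_lc.PolynomialRatio

/-- A configuration of `k` servers in `M`. -/
abbrev Config (k : ℕ) (M : Type*) := Fin k → M

/-- A history, most recent entry first: the pairs (configuration of Harmonic, configuration of the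
adversary) after each of the steps made so far; the last entry is the start. -/
abbrev History (k : ℕ) (M : Type*) := List (Config k M × Config k M)

/-- A (deterministic) adaptive online adversary. From the history it chooses the next request, and
the configuration in which its own servers are after serving that request. It may move any number
of its servers, but one of them must be at the request. -/
structure Adversary (k : ℕ) (M : Type*) where
  /-- the next request -/
  req : History k M → M
  /-- the next configuration of the adversary's servers -/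
  next : History k M → Config k M
  /-- the request is served -/
  serves : ∀ h, ∃ v, next h v = req h

variable {k : ℕ} {M : Type*} [MetricSpace M]

/-- The probability with which Harmonic, in configuration `x`, moves server `i` to an uncovered
request `r`. -/
noncomputable def prob (x : Config k M) (r : M) (i : Fin k) : ℝ :=
  (dist (x i) r)⁻¹ / ∑ j, (dist (x j) r)⁻¹

open Classical in
/-- The expected cost of Harmonic in the next `n` steps after the history `h`. -/
noncomputable def costH (A : Adversary k M) : ℕ → History k M → ℝ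
  | 0, _ => 0
  | _ + 1, [] => 0
  | n + 1, (x, y) :: p =>
    if ∃ i, x i = A.req ((x, y) :: p) then
      costH A n ((x, A.next ((x, y) :: p)) :: (x, y) :: p)
    else
      ∑ i, prob x (A.req ((x, y) :: p)) i *
        (dist (x i) (A.req ((x, y) :: p))
          + costH A n ((Function.update x i (A.req ((x, y) :: p)), A.next ((x, y) :: p))
              :: (x, y) :: p))

open Classical in
/-- The expected cost of the adversary in the next `n` steps after the history `h`. -/
noncomputable def costA (A : Adversary k M) : ℕ → History k M → ℝ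
  | 0, _ => 0
  | _ + 1, [] => 0
  | n + 1, (x, y) :: p =>
    ∑ v, dist (y v) (A.next ((x, y) :: p) v) +
    if ∃ i, x i = A.req ((x, y) :: p) then
      costA A n ((x, A.next ((x, y) :: p)) :: (x, y) :: p)
    else
      ∑ i, prob x (A.req ((x, y) :: p)) i *
        costA A n ((Function.update x i (A.req ((x, y) :: p)), A.next ((x, y) :: p))
          :: (x, y) :: p)

open Pool.Agent.Lib.MP_af7143_lc

/-- scaling factor of the potential -/
noncomputable def aa (k : ℕ) : ℝ := (k:ℝ) ^ 3 / (2 * k + 1)

/-- the ratio -/
noncomputable def RR (k : ℕ) : ℝ := (k:ℝ) ^ 3 * (2 * (k:ℝ) ^ 2 + 4 * k - 3) / (2 * k + 1)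

theorem RR_eq (k : ℕ) : RR k = aa k * (2 * (k:ℝ) ^ 2 + 4 * k - 3) := by
  rw [RR, aa]; ring

theorem aa_nonneg (k : ℕ) : 0 ≤ aa k := by rw [aa]; positivity

theorem RR_nonneg (hk : 1 ≤ k) : 0 ≤ RR k := by
  rw [RR_eq]
  refine mul_nonneg (aa_nonneg k) ?_
  have : (1:ℝ) ≤ k := by exact_mod_cast hk
  nlinarith

variable {N : Type*} [MetricSpace N]

/-- total potential -/
noncomputable def pot (ι : M → N) (x y : Config k M) (z : Fin k → N) : ℝ :=
  aa k * Phi z (fun j => ι (x j)) + RR k * ∑ v, dist (ι (y v)) (z v)

omit [MetricSpace M] in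
theorem pot_nonneg (hk : 1 ≤ k) (ι : M → N) (x y : Config k M) {z : Fin k → N}
    (hz : Function.Injective z) : 0 ≤ pot ι x y z := by
  have : Nonempty (Fin k) := ⟨⟨0, hk⟩⟩
  rw [pot]
  refine add_nonneg (mul_nonneg (aa_nonneg k) (Phi_nonneg hz rfl _))
    (mul_nonneg (RR_nonneg hk) (Finset.sum_nonneg fun v _ => dist_nonneg))

/-- The virtual adversary follows lazily: after a move of the adversary to `y'`, which covers `r`,
one can choose new sites covering `r` without paying more. -/
theorem exists_sites (hk : 1 ≤ k) {ι : M → N} (hι : ∀ u v, dist (ι u) (ι v) = dist u v)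
    (x y y' : Config k M) {z : Fin k → N} (hz : Function.Injective z) (r : M)
    (hr : ∃ v, y' v = r) :
    ∃ z' : Fin k → N, Function.Injective z' ∧ (∃ a, z' a = ι r) ∧
      pot ι x y' z' ≤ pot ι x y z + RR k * ∑ v, dist (y v) (y' v) := by
  have h1 : pot ι x y' z ≤ pot ι x y z + RR k * ∑ v, dist (y v) (y' v) := by
    have h2 : ∑ v, dist (ι (y' v)) (z v)
        ≤ ∑ v, dist (ι (y v)) (z v) + ∑ v, dist (y v) (y' v) := by
      rw [← Finset.sum_add_distrib]
      refine Finset.sum_le_sum fun v _ => ?_
      have := dist_triangle (ι (y' v)) (ι (y v)) (z v)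
      rw [hι, dist_comm (y' v)] at this
      linarith
    have h3 := mul_le_mul_of_nonneg_left h2 (RR_nonneg hk)
    rw [pot, pot]
    linarith
  by_cases hrange : ∃ a, z a = ι r
  · exact ⟨z, hz, hrange, h1⟩
  · push Not at hrange
    obtain ⟨v, hv⟩ := hr
    have hz' : Function.Injective (Function.update z v (ι r)) := by
      intro a b hab
      by_cases ha : a = v
      · by_cases hb : b = v
        · rw [ha, hb]
        · rw [ha, Function.update_self, Function.update_of_ne hb] at hab
          exact absurd hab.symm (hrange b)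
      · by_cases hb : b = v
        · rw [hb, Function.update_self, Function.update_of_ne ha] at hab
          exact absurd hab (hrange a)
        · rw [Function.update_of_ne ha, Function.update_of_ne hb] at hab
          exact hz hab
    refine ⟨Function.update z v (ι r), hz', ⟨v, Function.update_self _ _ _⟩, le_trans ?_ h1⟩
    have h2 := Phi_site_le hz v (ι r) hz' rfl (fun j => ι (x j))
    have h3 : ∑ u, dist (ι (y' u)) (Function.update z v (ι r) u)
        = ∑ u, dist (ι (y' u)) (z u) - dist (z v) (ι r) := by
      rw [← Finset.add_sum_erase _ _ (Finset.mem_univ v),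
        ← Finset.add_sum_erase _ (fun u => dist (ι (y' u)) (z u)) (Finset.mem_univ v)]
      have : ∑ u ∈ Finset.univ.erase v, dist (ι (y' u)) (Function.update z v (ι r) u)
          = ∑ u ∈ Finset.univ.erase v, dist (ι (y' u)) (z u) :=
        Finset.sum_congr rfl fun u hu => by
          rw [Function.update_of_ne (Finset.ne_of_mem_erase hu)]
      rw [this, Function.update_self, hv, dist_self, dist_comm (z v)]
      ring
    have h4 := mul_le_mul_of_nonneg_left h2 (aa_nonneg k)
    rw [pot, pot, h3]
    rw [Fintype.card_fin] at h4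
    rw [mul_add, ← mul_assoc, ← RR_eq] at h4
    linarith

/-- one random step of Harmonic, in expectation -/
theorem step (hk : 1 ≤ k) {ι : M → N} (hι : ∀ u v, dist (ι u) (ι v) = dist u v)
    (x y : Config k M) {z : Fin k → N} (hz : Function.Injective z) (r : M)
    (a : Fin k) (ha : z a = ι r) (hx : ¬ ∃ i, x i = r) :
    ∑ i, prob x r i * (dist (x i) r + pot ι (Function.update x i r) y z) ≤ pot ι x y z := by
  have hk0 : (0:ℝ) < k := by exact_mod_cast hk
  push Not at hx
  have hpos : ∀ i, 0 < (dist (x i) r)⁻¹ := fun i => inv_pos.2 (dist_pos.2 (hx i))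
  set Cs := ∑ j, (dist (x j) r)⁻¹ with hCs
  have hCpos : 0 < Cs := Finset.sum_pos (fun i _ => hpos i) ⟨⟨0, hk⟩, Finset.mem_univ _⟩
  have hdr := drift hz rfl (fun j => ι (x j)) a (by
    intro j h; rw [ha] at h
    exact hx j (dist_eq_zero.1 (by rw [← hι, h, dist_self])))
  have hup : ∀ j, Function.update (fun j => ι (x j)) j (z a)
      = fun i => ι (Function.update x j r i) := by
    intro j; funext i
    by_cases h : i = j
    · subst h; simp [ha]
    · simp [Function.update_of_ne h]
  simp only [hup] at hdr
  simp only [ha, hι, Fintype.card_fin] at hdr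
  set P := Phi z (fun j => ι (x j)) with hP
  set Q : Fin k → ℝ := fun i => Phi z (fun j => ι (Function.update x i r j)) with hQ
  have hsumprob : ∑ i, prob x r i = 1 := by
    simp only [prob]
    rw [← Finset.sum_div, div_self hCpos.ne']
  have e1 : ∀ i, prob x r i * (dist (x i) r + pot ι (Function.update x i r) y z)
      = 1 / Cs + aa k * ((dist (x i) r)⁻¹ * (Q i - P)) / Cs
        + prob x r i * pot ι x y z := by
    intro i
    have hd : dist (x i) r ≠ 0 := (dist_pos.2 (hx i)).ne'
    simp only [prob, pot, hQ, ← hCs, ← hP]
    field_simp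
    ring
  have e2 : ∑ _i : Fin k, 1 / Cs = k / Cs := by
    rw [Finset.sum_const, Finset.card_univ, Fintype.card_fin, nsmul_eq_mul]; ring
  have e3 : ∑ i, aa k * ((dist (x i) r)⁻¹ * (Q i - P)) / Cs
      = aa k * (∑ i, (dist (x i) r)⁻¹ * (Q i - P)) / Cs := by
    rw [← Finset.sum_div, ← Finset.mul_sum]
  rw [Finset.sum_congr rfl fun i _ => e1 i]
  rw [Finset.sum_add_distrib, Finset.sum_add_distrib, ← Finset.sum_mul, hsumprob, one_mul,
    e2, e3]
  have h3 : aa k * ∑ i, (dist (x i) r)⁻¹ * (Q i - P) ≤ -k := by
    have h4 := mul_le_mul_of_nonneg_left hdr (aa_nonneg k)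
    refine h4.trans (le_of_eq ?_)
    rw [aa]
    field_simp
  have h5 : (k:ℝ) / Cs + aa k * (∑ i, (dist (x i) r)⁻¹ * (Q i - P)) / Cs ≤ 0 := by
    rw [← add_div]
    exact div_nonpos_of_nonpos_of_nonneg (by linarith) hCpos.le
  linarith

/-- the induction -/
theorem main_ineq (hk : 1 ≤ k) {ι : M → N} (hι : ∀ u v, dist (ι u) (ι v) = dist u v)
    (A : Adversary k M) (n : ℕ) :
    ∀ (x y : Config k M) (p : History k M) (z : Fin k → N), Function.Injective z →
      costH A n ((x, y) :: p) ≤ RR k * costA A n ((x, y) :: p) + pot ι x y z := by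
  classical
  induction n with
  | zero =>
    intro x y p z hz
    simp only [costH, costA, mul_zero, zero_add]
    exact pot_nonneg hk ι x y hz
  | succ n ih =>
    intro x y p z hz
    set h := (x, y) :: p with hh
    set r := A.req h with hr
    set y' := A.next h with hy'
    obtain ⟨z', hz', ⟨a, ha⟩, hpot⟩ := exists_sites hk hι x y y' hz r (A.serves h)
    by_cases hcov : ∃ i, x i = r
    · have e1 : costH A (n + 1) h = costH A n ((x, y') :: h) := by
        rw [hh, costH, if_pos hcov]
      have e2 : costA A (n + 1) h = ∑ v, dist (y v) (y' v) + costA A n ((x, y') :: h) := by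
        rw [hh, costA, if_pos hcov]
      rw [e1, e2]
      have h1 := ih x y' h z' hz'
      linarith
    · have e1 : costH A (n + 1) h = ∑ i, prob x r i *
          (dist (x i) r + costH A n ((Function.update x i r, y') :: h)) := by
        rw [hh, costH, if_neg hcov]
      have e2 : costA A (n + 1) h = ∑ v, dist (y v) (y' v)
          + ∑ i, prob x r i * costA A n ((Function.update x i r, y') :: h) := by
        rw [hh, costA, if_neg hcov]
      have hprob : ∀ i, 0 ≤ prob x r i := fun i =>
        div_nonneg (inv_nonneg.2 dist_nonneg) (Finset.sum_nonneg fun j _ => inv_nonneg.2 dist_nonneg)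
      have h1 : ∑ i, prob x r i *
          (dist (x i) r + costH A n ((Function.update x i r, y') :: h))
          ≤ ∑ i, (prob x r i * (dist (x i) r + pot ι (Function.update x i r) y' z')
            + RR k * (prob x r i * costA A n ((Function.update x i r, y') :: h))) := by
        refine Finset.sum_le_sum fun i _ => ?_
        have h2 := ih (Function.update x i r) y' h z' hz'
        have h3 := mul_le_mul_of_nonneg_left h2 (hprob i)
        nlinarith
      rw [Finset.sum_add_distrib, ← Finset.mul_sum] at h1
      have h4 := step hk hι x y' hz' r a ha hcov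
      rw [e1, e2]
      linarith

/-- **Harmonic is polynomially competitive.** -/
theorem result (k : ℕ) (hk : 1 ≤ k) (M : Type*) [MetricSpace M] (x₀ : Fin k → M) :
    ∃ C : ℝ, ∀ (A : Adversary k M) (n : ℕ),
      costH A n [(x₀, x₀)]
        ≤ ((k:ℝ) ^ 3 * (2 * (k:ℝ) ^ 2 + 4 * k - 3) / (2 * k + 1)) * costA A n [(x₀, x₀)] + C := by
  -- embed `M` into `M × ℝ`
  set ι : M → M × ℝ := fun u => (u, 0) with hι
  have hiso : ∀ u v, dist (ι u) (ι v) = dist u v := by
    intro u v; simp [hι, Prod.dist_eq]
  set z₀ : Fin k → M × ℝ := fun v => (x₀ v, ((v : ℕ) : ℝ)) with hz₀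
  have hinj : Function.Injective z₀ := by
    intro u v huv
    have : ((u : ℕ) : ℝ) = ((v : ℕ) : ℝ) := (Prod.mk.inj huv).2
    exact Fin.ext (by exact_mod_cast this)
  refine ⟨pot ι x₀ x₀ z₀, fun A n => ?_⟩
  exact main_ineq hk hiso A n x₀ x₀ [] z₀ hinj

end Pool.Agent.Results.MP_af7143_lc.PolynomialRatio
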