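import Pool.Agent.Lib.MP_af7143_lc.HstMain

/-!
# The Harmonic `k`-server algorithm on separated hierarchical spaces

Let `ρ` be an ultrametric on a metric space `M` which is separated by the factor `s` at every
point (an `s`-HST), and let the distance of `M` lie between `ρ` and `(1 + 1/s) ρ`. Then Harmonic
with `k` servers is competitive with the ratio `k (k + 1) / 2 * (2 s / (2 s - 2 - (k + 1)³))`,
which tends to the conjectured ratio `k (k + 1) / 2` when `s` tends to infinity.
-/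

set_option autoImplicit false

open Pool.Agent.Lib.MP_af7143_lc.Hst

universe u

theorem Pool.Agent.Results.MP_af7143_lc.SeparatedSpaces.result (k : ℕ) (hk : 1 ≤ k) (s : ℝ)
    (hs : ((k : ℝ) + 1) ^ 3 / 2 + 1 < s) (M : Type u) [MetricSpace M] (ρ : M → M → ℝ)
    (hsymm : ∀ x y, ρ x y = ρ y x)
    (hultra : ∀ x y z, ρ x z ≤ max (ρ x y) (ρ y z))
    (hsep : ∀ x y z, ρ x y < ρ x z → s * ρ x y ≤ ρ x z)
    (hlow : ∀ x y, ρ x y ≤ dist x y)
    (hupp : ∀ x y, dist x y ≤ (1 + 1 / s) * ρ x y) :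
    Competitive k M ((k : ℝ) * (k + 1) / 2 * (2 * s / (2 * s - 2 - ((k : ℝ) + 1) ^ 3))) :=
  hier hk hs ⟨hsymm, hultra, hsep, hlow, hupp⟩
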